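import Pool.Agent.L0h64.ZV.Cpx

/-!
# Zeta points on algebraic sets

Let `V` be an algebraic subset of `ℂ ^ n`, the set of common zeros of a set `S` of polynomials with
complex coefficients and of degree at most `d`. For tuples `s` of distinct integers of the window
`[N, κ N]`, `N ≥ N₀(n, d, κ)`, the point `(ζ(s 1), …, ζ(s n))` can lie on `V` only for an obvious
reason: there are at most `n! ∏_{j ≤ n} (binom(j + d, j) - 1)` coordinate subspaces
`{x : x i = ζ(a i) for i in I}` which are contained in `V`, such that the tuples `s` with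
`(ζ(s 1), …, ζ(s n)) ∈ V` are exactly those with `s i = a i` for all `i` in `I`, for one of them.
Neither the number of subspaces nor `N₀` depends on `V`. So if `V` contains no coordinate subspace
of positive dimension, then there are at most `n! ∏_{j ≤ n} (binom(j + d, j) - 1)` such points in
every window.
-/

set_option autoImplicit false

namespace Pool.Agent.Results.MP_a89d6d_nt.AlgebraicSets

open MvPolynomial Pool.Agent.L0h64.ZV

/-- `Window κ N s`: `s` is a tuple of distinct integers of the interval `[N, κ N]` -/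
def Window {n : ℕ} (κ : ℝ) (N : ℕ) (s : Fin n → ℕ) : Prop :=
  Function.Injective s ∧ ∀ i, N ≤ s i ∧ (s i : ℝ) ≤ κ * N

/-- the point `(ζ(s 1), …, ζ(s n))` of `ℂ ^ n` -/
noncomputable def point {n : ℕ} (s : Fin n → ℕ) : Fin n → ℂ := fun i => riemannZeta (s i)

/-- the family of all tuples `s` with `s i = a` for every `i` with `f i = some a` -/
def family {n : ℕ} (f : Fin n → Option ℕ) : Set (Fin n → ℕ) := {s | ∀ i a, f i = some a → s i = a}

/-- the coordinate subspace of `ℂ ^ n` of all `x` with `x i = ζ(a)` for every `i` with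
`f i = some a` -/
def subspace {n : ℕ} (f : Fin n → Option ℕ) : Set (Fin n → ℂ) :=
  {x | ∀ i a, f i = some a → x i = riemannZeta a}

theorem result (n d : ℕ) (κ : ℝ) :
    ∃ N₀ : ℕ, ∀ N : ℕ, N₀ ≤ N →
      ∀ S : Set (MvPolynomial (Fin n) ℂ), (∀ P ∈ S, P.totalDegree ≤ d) →
        ∃ F : Finset (Fin n → Option ℕ),
          F.card ≤ max 1 (n.factorial * ∏ j ∈ Finset.range n, ((j + 1 + d).choose (j + 1) - 1)) ∧
          (∀ f ∈ F, ∀ x ∈ subspace f, ∀ P ∈ S, eval x P = 0) ∧
          ∀ s : Fin n → ℕ, Window κ N s →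
            ((∀ P ∈ S, eval (point s) P = 0) ↔ ∃ f ∈ F, s ∈ family f) := by
  classical
  obtain ⟨N0, h⟩ := strSet' n d κ
  refine ⟨N0 + 2, fun N hN S hS => ?_⟩
  obtain ⟨F, hF, h1, h2⟩ := h N (by omega) S hS
  -- keep only the families which contain a tuple of the window
  obtain ⟨F', hF'⟩ : ∃ F', F' = F.filter fun f => ∃ s, Window κ N s ∧ s ∈ family f := ⟨_, rfl⟩
  have hsub : ∀ f ∈ F', ∀ x ∈ subspace f, ∀ P ∈ S, eval x P = 0 := by
    intro f hf x hx
    rw [hF', Finset.mem_filter] at hf
    obtain ⟨hf, s, hs, hsf⟩ := hf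
    refine h1 f hf x fun i a hia => ?_
    rw [hx i a hia, zt_eq]
    rw [← hsf i a hia]
    have := (hs.2 i).1
    omega
  refine ⟨F', ?_, hsub, fun s hs => ⟨fun hz => ?_, ?_⟩⟩
  · rw [hF']
    exact (Finset.card_filter_le _ _).trans hF
  · obtain ⟨f, hf, hfs⟩ := h2 s hs (by
      intro P hP
      rw [← hz P hP]
      congr 1
      congr 1
      funext j
      have := (hs.2 j).1
      exact zt_eq (by omega))
    refine ⟨f, ?_, hfs⟩
    rw [hF', Finset.mem_filter]
    exact ⟨hf, s, hs, hfs⟩
  · rintro ⟨f, hf, hfs⟩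
    refine hsub f hf (point s) fun i a hia => ?_
    rw [← hfs i a hia]
    rfl

end Pool.Agent.Results.MP_a89d6d_nt.AlgebraicSets
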