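import Pool.Agent.L0h38.Q4.Main

/-!
# Four linearly independent numbers among `1, ζ(3), ζ(5), …, ζ(99)`

`1, ζ(3), ζ(i), ζ(j)` are linearly independent over `ℚ` for some `i ∈ {5, 7}` and some odd `j ≤ 99`; so the numbers
`1, ζ(3), ζ(5), …, ζ(99)` span a `ℚ`-vector space of dimension at least four.

The proof evaluates three-block Hankel determinants of size `99 (ν - 1)` of the linear forms `∑ R(t) Q(x(t))`,
`R(t) = ((2n-1)!)^99 (2t+2n+1)^401 / ∏_{k=1}^{2n} (t+k)^99`, `x(t) = (t+n)(t+n+1)`, `n = 2ν`, and of the two linear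
functionals of the coefficients which appear if `ζ(i) = α_i + θ β_i + θ' γ_i` for all odd `i ≤ 99`. The archimedean part is
at most `13068 ν² log ν + 1600 ν²`, the `p`-adic part at most `-13068 ν² log ν - 1700 ν²`; the determinants do not vanish
if `ν` is a large prime.
-/

namespace Pool.Agent.Results.MP_a89d6d_nt.DimFourZeta99

/-- `1, ζ(3), ζ(i), ζ(j)` are linearly independent over `ℚ` for some `i ∈ {5, 7}` and some odd `j`, `5 ≤ j ≤ 99`. -/
theorem result : ∃ i ∈ ({5, 7} : Set ℕ), ∃ j : ℕ, Odd j ∧ 5 ≤ j ∧ j ≤ 99 ∧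
    LinearIndependent ℚ ![(1 : ℝ), ∑' n : ℕ, 1 / ((n : ℝ) + 1) ^ 3, ∑' n : ℕ, 1 / ((n : ℝ) + 1) ^ i,
      ∑' n : ℕ, 1 / ((n : ℝ) + 1) ^ j] :=
  Pool.Agent.L0h38.Q4.Z_four

end Pool.Agent.Results.MP_a89d6d_nt.DimFourZeta99
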