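import Pool.Agent.L0h64.ZV.Main

/-!
# Zeta values over fields of finite transcendence degree

Let `x 1, …, x t` be arbitrary complex numbers, for instance `x 1 = π`, or
`x = (π, ζ(3), ζ(5), …, ζ(2 t - 1))`. In every window `[N, κ N]` with `N ≥ N₀` there are at most `t`
exceptional integers such that the values `ζ(s 1), …, ζ(s n)` at distinct integers of the window
outside of the exceptional ones are algebraically independent over the field generated by
`x 1, …, x t`, as far as polynomials `P` of degree at most `D` in the `x` and the zeta values with
integer coefficients of absolute value at most `C ^ N` are concerned: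
`P(x, ζ(s 1), …, ζ(s n))` vanishes only if `P(x, X 1, …, X n)` is identically zero. More
precisely, its absolute value is at least `B ^ (-N)` times the supremum of `|P(x, y)|` over the
unit polydisc. The number `t` of exceptions cannot be lowered (take `x i = ζ(a i)` for different
integers `a i` of the window), and `N₀`, `B` do not depend on the numbers `x i`.

The proof combines the case `t = 0`, which rests on the subspace theorem and is taken from the
library of the pool, with a valuation-theoretic argument: in the field of germs (an ultraproduct
of copies of `ℂ`) the exponentially bounded germs form a valuation ring; the zeta values are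
algebraically independent in its residue field over the integers of exponentially bounded
absolute value; the residue field of an extension generated by `t` germs has transcendence degree
at most `t`, and the exceptional integers are found one by one with an exchange argument in the
algebraic matroid.
-/

set_option autoImplicit false

namespace Pool.Agent.Results.MP_a89d6d_nt.TranscendenceDegree

open MvPolynomial Pool.Agent.L0h64.ZV

theorem result (n t D : ℕ) (κ C : ℝ) :
    ∃ B : ℝ, 1 < B ∧ ∃ N₀ : ℕ, ∀ N : ℕ, N₀ ≤ N → ∀ x : Fin t → ℂ,
      ∃ H : Finset ℕ, H.card ≤ t ∧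
        ∀ s : Fin n → ℕ, Function.Injective s →
          (∀ i, N ≤ s i ∧ (s i : ℝ) ≤ κ * N ∧ s i ∉ H) →
          ∀ P : MvPolynomial (Fin t ⊕ Fin n) ℤ, P.totalDegree ≤ D →
            (∀ b, |((P.coeff b : ℤ) : ℝ)| ≤ C ^ N) →
            ∀ y : Fin n → ℂ, (∀ i, ‖y i‖ ≤ 1) →
              ‖aeval (Sum.elim x y) P‖ ≤
                B ^ N * ‖aeval (Sum.elim x fun i => riemannZeta (s i)) P‖ := by
  obtain ⟨B, hB, N0, h⟩ := mainT n t D κ C
  refine ⟨B, hB, N0 + 2, fun N hN x => ?_⟩
  obtain ⟨H, hH, h⟩ := h N (by omega) x
  refine ⟨H, hH, fun s hs hsN P hP hC y hy => ?_⟩
  have h1 : (fun i => riemannZeta (s i)) = fun i => ((zt (s i) : ℝ) : ℂ) := by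
    funext i
    have := (hsN i).1
    exact (zt_eq (by omega)).symm
  rw [h1]
  exact h s ⟨hs, fun i => ⟨(hsN i).1, (hsN i).2.1⟩⟩ (fun i => (hsN i).2.2) P hP hC y hy

end Pool.Agent.Results.MP_a89d6d_nt.TranscendenceDegree
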