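import Mathlib
import Pool.Agent.L0h44.ZW.ZW10

/-!
# Zeta values at large arguments: no relation with exponentially large coefficients over `π`, or over `π ^ 2, ζ(3)`

The sum `∑ v_j f_j(ζ(a_1), ..., ζ(a_m))` is rewritten in the small quantities `ζ(a_l) - 1`; its coefficients `q_i`
are then integer linear forms in the `v_j`, hence not too small. The powers of `π` have a polynomial measure of
linear independence by `Pool/Agent/TH456/TM/`, the numbers `1, π ^ 2, ζ(3)` by `Pool/Agent/TH647/NR/Zeta.lean`.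

Windows: for `a_l = r_l n + d_l` the sum is a Dirichlet polynomial `∑ C_M M ^ (-n)` up to a small error. The
`C_M`, multiplied by `M ^ Δ`, are again integer linear forms in the `v_j`. Some `C_M ≠ 0` with `M` bounded, by the
algebraic independence of the generalized power sums `∑_p p ^ (-d_l) z_p ^ (r_l)`, which is proved with
generalized Vandermonde determinants (`L0h44/ZW/ZW1.lean`, `ZW3.lean`). The first such `M` dominates.
Pairs: `a / b` is close to a quotient of two numbers `≤ D` (windows), or the products `2 ^ (-(i a + j b))`,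
`i, j ≤ D`, have different orders of magnitude (separated).
-/

set_option autoImplicit false

namespace Pool.Agent.Results.MP_a89d6d_nt.WindowsAndPairs

/-- `ζ(s) = ∑_{n ≥ 1} 1 / n ^ s` -/
noncomputable def zeta (s : ℕ) : ℝ := ∑' n : ℕ, 1 / ((n : ℝ) + 1) ^ s

/-- the real numbers `v_1, ..., v_k` have a polynomial measure of linear independence:
`|t_1 v_1 + ... + t_k v_k| ≥ c H ^ (-κ)` for all nonzero integer vectors `t` with `|t_j| ≤ H` -/
def Measured {k : ℕ} (v : Fin k → ℝ) : Prop :=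
  ∃ κ c : ℝ, 0 ≤ κ ∧ 0 < c ∧ ∀ t : Fin k → ℤ, t ≠ 0 → ∀ H : ℝ, 1 ≤ H → (∀ j, |(t j : ℝ)| ≤ H) →
    c ≤ H ^ κ * |∑ j, (t j : ℝ) * v j|

/-- `∑ f_j(ζ(a_1), ..., ζ(a_m)) v_j` -/
noncomputable def value {k m : ℕ} (v : Fin k → ℝ) (a : Fin m → ℕ) (f : Fin k → MvPolynomial (Fin m) ℤ) : ℝ :=
  ∑ j, MvPolynomial.aeval (fun l => zeta (a l)) (f j) * v j

/-- the `f_j` are integer polynomials, not all zero, of degree at most `D` in each variable and with coefficients of
absolute value at most `H` -/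
def Small {k m : ℕ} (D : ℕ) (H : ℝ) (f : Fin k → MvPolynomial (Fin m) ℤ) : Prop :=
  f ≠ 0 ∧ (∀ j l, (f j).degreeOf l ≤ D) ∧ ∀ j e, |(((f j).coeff e : ℤ) : ℝ)| ≤ H

/-- the `a_l` are different, and each of them lies in one of the intervals `[r n, (r + δ) n]`, `1 ≤ r ≤ R` -/
def InWindows {m : ℕ} (R n : ℕ) (δ : ℝ) (a : Fin m → ℕ) : Prop :=
  Function.Injective a ∧ ∀ l, ∃ r : ℕ, 1 ≤ r ∧ r ≤ R ∧ r * n ≤ a l ∧ (a l : ℝ) ≤ (r + δ) * n

/-- `a_l ≥ n`, and the sums `∑ i_l a_l` with `0 ≤ i_l ≤ D` have distances at least `η n` -/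
def Separated {m : ℕ} (D n : ℕ) (η : ℝ) (a : Fin m → ℕ) : Prop :=
  (∀ l, n ≤ a l) ∧ ∀ i i' : Fin m → Fin (D + 1), i ≠ i' →
    η * n ≤ |∑ l, ((i l : ℕ) : ℝ) * a l - ∑ l, ((i' l : ℕ) : ℝ) * a l|

theorem measured_iff {k : ℕ} (v : Fin k → ℝ) : Measured v ↔ Pool.Agent.L0h44.ZW.Measured v := Iff.rfl

theorem value_eq {k m : ℕ} (v : Fin k → ℝ) (a : Fin m → ℕ) (ha : ∀ l, 1 < a l)
    (f : Fin k → MvPolynomial (Fin m) ℤ) : value v a f = Pool.Agent.L0h44.ZW.ev v a f := by
  have h1 : (fun l => zeta (a l)) = fun l => Pool.Agent.L0h44.ZW.Z (a l) := by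
    funext l
    exact (Pool.Agent.L0h44.ZW.Z_succ (ha l)).symm
  rw [value, h1]
  rfl

/-- (1) The families `1, π, ..., π ^ D` and (2) `1, π ^ 2, ζ(3)` have a polynomial measure of linear independence.
Let `v_1, ..., v_k` be any real numbers with a polynomial measure of linear independence.
(3) For all `m`, `D`, `R` and `η > 0` there are `c, δ, C > 0` such that for all large `n` and all `a_1, ..., a_m`
which are in windows `[r n, (r + δ) n]`, `1 ≤ r ≤ R`, or separated: if `f_1, ..., f_k` are integer polynomials, not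
all zero, of degree at most `D` in each variable and with coefficients at most `e ^ (c n)`, then
`|∑ v_j f_j(ζ(a_1), ..., ζ(a_m))| ≥ exp (-C (n + ∑ a_l))`.
(4) For `m = 2` this holds for ALL different `a, b ≥ N₀`, with coefficients at most `e ^ (c min(a, b))`. -/
theorem result :
    (∀ D : ℕ, Measured (fun j : Fin (D + 1) => Real.pi ^ (j : ℕ))) ∧
    Measured ![1, Real.pi ^ 2, zeta 3] ∧
    ∀ (k : ℕ) (v : Fin k → ℝ), Measured v →
      (∀ m D R : ℕ, ∀ η : ℝ, 0 < η → ∃ c δ C : ℝ, 0 < c ∧ 0 < δ ∧ 0 < C ∧ ∃ n0 : ℕ, ∀ n : ℕ, n0 ≤ n →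
        ∀ a : Fin m → ℕ, InWindows R n δ a ∨ Separated D n η a →
        ∀ f : Fin k → MvPolynomial (Fin m) ℤ, Small D (Real.exp (c * n)) f →
          Real.exp (-(C * (n + ∑ l, (a l : ℝ)))) ≤ |value v a f|) ∧
      (∀ D : ℕ, ∃ c C : ℝ, 0 < c ∧ 0 < C ∧ ∃ N0 : ℕ, ∀ a b : ℕ, N0 ≤ a → N0 ≤ b → a ≠ b →
        ∀ f : Fin k → MvPolynomial (Fin 2) ℤ, Small D (Real.exp (c * (min a b : ℕ))) f →
          Real.exp (-(C * (max a b : ℕ))) ≤ |value v ![a, b] f|) := by
  refine ⟨fun D => Pool.Agent.L0h44.ZW.piv_measured D, ?_, fun k v hv => ⟨fun m D R η hη => ?_, fun D => ?_⟩⟩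
  · have h1 : (![1, Real.pi ^ 2, zeta 3] : Fin 3 → ℝ) = Pool.Agent.L0h44.ZW.wv := by
      unfold Pool.Agent.L0h44.ZW.wv
      rw [Pool.Agent.L0h44.ZW.Z_succ (by norm_num : 1 < 3)]
      rfl
    rw [h1]
    exact Pool.Agent.L0h44.ZW.wv_measured
  · obtain ⟨c1, δ, C1, hc1, hδ, hC1, n1, hw⟩ := Pool.Agent.L0h44.ZW.window hv m D R
    obtain ⟨c2, C2, hc2, hC2, n2, hs⟩ := Pool.Agent.L0h44.ZW.separated hv m D η hη
    refine ⟨min c1 c2, δ, max C1 C2, lt_min hc1 hc2, hδ, lt_max_of_lt_left hC1, max (max n1 n2) 2,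
      fun n hn a ha f hf => ?_⟩
    have hn1 : n1 ≤ n := ((le_max_left _ _).trans (le_max_left _ _)).trans hn
    have hn2 : n2 ≤ n := ((le_max_right _ _).trans (le_max_left _ _)).trans hn
    have hn3 : 2 ≤ n := (le_max_right _ _).trans hn
    have hn0 : (0 : ℝ) ≤ n := Nat.cast_nonneg n
    have hsum : 0 ≤ ∑ l, (a l : ℝ) := Finset.sum_nonneg fun _ _ => Nat.cast_nonneg _
    obtain ⟨hf0, hfd, hfc⟩ := hf
    rcases ha with ha | ha
    · choose r hr using ha.2
      have ha1 : ∀ l, 1 < a l := fun l => by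
        have h1 := (hr l).2.2.1
        have h2 := Nat.mul_le_mul (hr l).1 hn3
        omega
      rw [value_eq v a ha1]
      refine le_trans ?_ (hw n hn1 a r ha.1 (fun l => (hr l).1) (fun l => (hr l).2.1)
        (fun l => (hr l).2.2.1) (fun l => (hr l).2.2.2) f hf0 hfd (fun j e => (hfc j e).trans ?_))
      · apply Real.exp_le_exp.2
        have h1 : C1 * n ≤ max C1 C2 * n := mul_le_mul_of_nonneg_right (le_max_left _ _) hn0
        have h2 : 0 ≤ max C1 C2 * ∑ l, (a l : ℝ) := mul_nonneg (hC1.le.trans (le_max_left _ _)) hsum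
        rw [mul_add]
        linarith
      · apply Real.exp_le_exp.2
        exact mul_le_mul_of_nonneg_right (min_le_left _ _) hn0
    · have ha1 : ∀ l, 1 < a l := fun l => lt_of_lt_of_le (by omega) (ha.1 l)
      rw [value_eq v a ha1]
      refine le_trans ?_ (hs n hn2 a ha.1 (fun i i' hne => ?_) f hf0 hfd (fun j e => (hfc j e).trans ?_))
      · apply Real.exp_le_exp.2
        have h1 : C2 * (n + ∑ l, (a l : ℝ)) ≤ max C1 C2 * (n + ∑ l, (a l : ℝ)) :=
          mul_le_mul_of_nonneg_right (le_max_right _ _) (by linarith)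
        linarith
      · have := ha.2 i i' hne
        push_cast
        exact this
      · apply Real.exp_le_exp.2
        exact mul_le_mul_of_nonneg_right (min_le_right _ _) hn0
  · obtain ⟨c, C, hc, hC, N0, h⟩ := Pool.Agent.L0h44.ZW.pairs hv D
    refine ⟨c, C, hc, hC, max N0 2, fun a b ha hb hab f hf => ?_⟩
    obtain ⟨hf0, hfd, hfc⟩ := hf
    have h1 : ∀ l : Fin 2, 1 < (![a, b] : Fin 2 → ℕ) l := by
      intro l
      fin_cases l
      · exact lt_of_lt_of_le (by norm_num) ((le_max_right _ _).trans ha)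
      · exact lt_of_lt_of_le (by norm_num) ((le_max_right _ _).trans hb)
    rw [value_eq v _ h1]
    exact h ![a, b] (fun l => by
      fin_cases l
      · exact (le_max_left _ _).trans ha
      · exact (le_max_left _ _).trans hb) hab f hf0 hfd hfc

end Pool.Agent.Results.MP_a89d6d_nt.WindowsAndPairs
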